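import Mathlib
import Pool.Agent.Helper12.BI.Main

set_option autoImplicit false

/-!
Read-once programs over a finite monoid `M`, in any order of reading: `k`-wise uniform
distributions with `k` independent of the length of the program fool all of them if and only if
`M` is aperiodic and the products in each `J`-class of `M` have a rectangular pattern. In this case
every program over `M` becomes constant after fixing boundedly many suitable letters, and the
small bias strings `x_i = Tr (b * a ^ i)` form an explicit pseudorandom generator with seeds of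
length `O(log (n / δ))`.
-/

namespace Helper12.Retired.BoundedIndependence

section monoids

/-- `x` lies in the two-sided ideal `M y M` generated by `y`. -/
def JLe {M : Type} [Monoid M] (x y : M) : Prop := ∃ p q, x = p * y * q

/-- `x` and `y` generate the same two-sided ideal (they are in the same `J`-class). -/
def JEquiv {M : Type} [Monoid M] (x y : M) : Prop := JLe x y ∧ JLe y x

/-- `M` is aperiodic: each `x` satisfies `x ^ (n + 1) = x ^ n` for some `n`. For finite `M` this
means that all groups contained in `M` are trivial. -/
def Aperiodic (M : Type) [Monoid M] : Prop := ∀ x : M, ∃ n : ℕ, x ^ (n + 1) = x ^ n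

/-- Inside each `J`-class the pairs with product in the same `J`-class form disjoint rectangles:
if `x z`, `x' z` and `x z'` stay in the `J`-class of `x, x', z, z'`, then so does `x' z'`. -/
def Rectangular (M : Type) [Monoid M] : Prop := ∀ x x' z z' : M,
  JEquiv x x' → JEquiv x z → JEquiv x z' →
    JEquiv x (x * z) → JEquiv x (x' * z) → JEquiv x (x * z') → JEquiv x (x' * z')

end monoids

section programs

variable {M S : Type} [Monoid M] {n : ℕ}

/-- A read-once program of length `n` over the monoid `M` with input alphabet `S` is given by its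
letters `c i s` (`i < n`, `s ∈ S`); its value on the string `x` is the product
`c 0 (x 0) * c 1 (x 1) * ⋯ * c (n - 1) (x (n - 1))`. -/
def value (c : Fin n → S → M) (x : Fin n → S) : M := (List.ofFn fun i => c i (x i)).prod

/-- The strings that agree with `a` on the positions in `P`. -/
def cube (P : Finset (Fin n)) (a : Fin n → S) : Set (Fin n → S) := {x | ∀ i ∈ P, x i = a i}

/-- Every program over `M` (with any input alphabet, of any length) becomes constant when at most
`k` suitable letters of the input are fixed in a suitable way. -/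
def Certified (M : Type) [Monoid M] (k : ℕ) : Prop :=
  ∀ (S : Type) [Nonempty S] (n : ℕ) (c : Fin n → S → M),
    ∃ (P : Finset (Fin n)) (a : Fin n → S), P.card ≤ k ∧ ∃ u, ∀ x ∈ cube P a, value c x = u

end programs

section distributions

variable {S : Type} [Fintype S] {n : ℕ}

/-- The total weight that the weights `μ` give to the set `A`. -/
noncomputable def prob (μ : (Fin n → S) → ℝ) (A : Set (Fin n → S)) : ℝ := ∑ x, A.indicator μ x

/-- `μ` is a probability distribution on the strings of length `n`. -/
def IsDist (μ : (Fin n → S) → ℝ) : Prop := (∀ x, 0 ≤ μ x) ∧ ∑ x, μ x = 1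

/-- The uniform distribution on the strings of length `n`. -/
noncomputable def unif (S : Type) [Fintype S] (n : ℕ) : (Fin n → S) → ℝ :=
  fun _ => (1 / (Fintype.card S : ℝ)) ^ n

/-- Any at most `K` letters of a `μ`-random string take any given values with the right
probability, up to an error of at most `η`. -/
def NearUniform (μ : (Fin n → S) → ℝ) (K : ℕ) (η : ℝ) : Prop :=
  ∀ (P : Finset (Fin n)) (a : Fin n → S), P.card ≤ K →
    |prob μ (cube P a) - (1 / (Fintype.card S : ℝ)) ^ P.card| ≤ η

/-- `μ` is a `k`-wise uniform probability distribution: any at most `k` letters of a `μ`-random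
string are independent and uniformly distributed. -/
def KWise (μ : (Fin n → S) → ℝ) (k : ℕ) : Prop := IsDist μ ∧ NearUniform μ k 0

/-- How much the acceptance probability of a program for `μ`-random inputs differs from the one
for uniformly random inputs. The program has letters `c` and accepting set `F` and reads the letters
of the input in the order given by the permutation `σ`. -/
noncomputable def error {M : Type} [Monoid M] (μ : (Fin n → S) → ℝ) (σ : Equiv.Perm (Fin n))
    (c : Fin n → S → M) (F : Set M) : ℝ :=
  |prob μ {x | value c (x ∘ σ) ∈ F} - prob (unif S n) {x | value c (x ∘ σ) ∈ F}|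

/-- Bounded independence fools the programs over `M`: for all finite alphabets `S` and all
`δ > 0` there is a `k` such that all `k`-wise uniform distributions on strings over `S`, of any
length, fool all programs over `M`, with any order of reading and any accepting set, up to an error
of at most `δ`. -/
def Fooled (M : Type) [Monoid M] : Prop :=
  ∀ (S : Type) [Fintype S] [Nonempty S] (δ : ℝ), 0 < δ → ∃ k : ℕ,
    ∀ (n : ℕ) (μ : (Fin n → S) → ℝ), KWise μ k →
      ∀ (σ : Equiv.Perm (Fin n)) (c : Fin n → S → M) (F : Set M), error μ σ c F ≤ δ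

end distributions

/-- The number of letters to be fixed, for monoids with `m` elements. -/
def fixings (m : ℕ) : ℕ := (2 ^ m + 1) * (m + 2) ^ (m + 2)

/-- The bit string `x_i = Tr (b * a ^ i)` (`i < n`) for elements `a`, `b` of the field with `2 ^ m`
elements. -/
noncomputable def bits (m n : ℕ) (p : GaloisField 2 m × GaloisField 2 m) : Fin n → ZMod 2 :=
  fun i => Algebra.trace (ZMod 2) (GaloisField 2 m) (p.2 * p.1 ^ (i : ℕ))

/-- The distribution of `bits m n (a, b)` for uniformly random `a`, `b` (`2 m` random bits). -/
noncomputable def bitsDist (m n : ℕ) : (Fin n → ZMod 2) → ℝ :=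
  fun x => (Nat.card {p : GaloisField 2 m × GaloisField 2 m // bits m n p = x} : ℝ) / 4 ^ m

/-- **Theorem.** Let `M` be a finite monoid.
(1), (2) `M` is aperiodic and rectangular if and only if programs over `M` become constant by
fixing boundedly many suitable letters, if and only if bounded independence fools the programs
over `M`.
(3) `fixings |M|` letters suffice in (1).
(4) If `k` letters suffice in (1), then distributions that are nearly uniform on all sets of at
most `j k` letters, with error `η`, fool programs over `M` with error
`(1 - |S| ^ (- k)) ^ j + |S| ^ (j k) η`.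
(5) The strings `Tr (b * a ^ i)` with `a`, `b` in the field with `2 ^ m` elements fool the
programs over `M` that read bits with error `(1 - 2 ^ (- k)) ^ j + 2 ^ (j k) n / 2 ^ m`, for each
`j`.
(6) If `M` is not aperiodic and rectangular, then for some alphabet there are, for every `k`, a
program over `M` of length at most `(k + 1) 2 ^ (k + 1)` and a `k`-wise uniform distribution such
that the program accepts at least half of all inputs, but none of the inputs of positive weight. -/
theorem result (M : Type) [Monoid M] [Finite M] :
    ((Aperiodic M ∧ Rectangular M) ↔ ∃ k, Certified M k) ∧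
    ((Aperiodic M ∧ Rectangular M) ↔ Fooled M) ∧
    (Aperiodic M → Rectangular M → Certified M (fixings (Nat.card M))) ∧
    (∀ k, Certified M k → ∀ (S : Type) [Fintype S] [Nonempty S] (n j : ℕ) (η : ℝ)
      (μ : (Fin n → S) → ℝ), 0 ≤ η → IsDist μ → NearUniform μ (j * k) η →
      ∀ (σ : Equiv.Perm (Fin n)) (c : Fin n → S → M) (F : Set M),
        error μ σ c F ≤
          (1 - (1 / (Fintype.card S : ℝ)) ^ k) ^ j + (Fintype.card S : ℝ) ^ (j * k) * η) ∧
    (∀ k, Certified M k → ∀ m n j : ℕ, 1 ≤ m →
      ∀ (σ : Equiv.Perm (Fin n)) (c : Fin n → ZMod 2 → M) (F : Set M),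
        error (bitsDist m n) σ c F ≤ (1 - (1 / 2 : ℝ) ^ k) ^ j + 2 ^ (j * k) * (n / 2 ^ m)) ∧
    (¬ (Aperiodic M ∧ Rectangular M) → ∃ q : ℕ, 2 ≤ q ∧ ∀ k : ℕ, ∃ (n : ℕ)
      (μ : (Fin n → Fin q) → ℝ) (c : Fin n → Fin q → M) (F : Set M),
        n ≤ (k + 1) * 2 ^ (k + 1) ∧ KWise μ k ∧
        1 / 2 ≤ prob (unif (Fin q) n) {x | value c x ∈ F} ∧
        ∀ x, 0 < μ x → value c x ∉ F) := by
  have hgood : Aperiodic M → Rectangular M → Certified M (fixings (Nat.card M)) :=
    fun h1 h2 => Helper12.BI.certified h1 h2
  have hbad : ¬ (Aperiodic M ∧ Rectangular M) → Helper12.BI.Unfooled M :=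
    fun h => Helper12.BI.unfooled h
  have hfooled : ∀ k, Certified M k → Fooled M := by
    intro k hk S _ _ δ hδ
    obtain ⟨k', h⟩ := Helper12.BI.Certified.fooled (M := M) (k := k) hk S δ hδ
    exact ⟨k', fun n μ hμ σ c F => h n σ c F μ hμ.1 hμ.2⟩
  have hnot : ¬ (Aperiodic M ∧ Rectangular M) → ¬ Fooled M := by
    intro h hf
    refine (hbad h).not_fooled ?_
    intro S _ _ δ hδ
    obtain ⟨k, hk⟩ := hf S δ hδ
    exact ⟨k, fun n σ c F μ h1 h2 => hk n μ ⟨h1, h2⟩ σ c F⟩
  refine ⟨⟨fun h => ⟨_, hgood h.1 h.2⟩, ?_⟩, ⟨fun h => hfooled _ (hgood h.1 h.2), ?_⟩, hgood,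
    ?_, ?_, ?_⟩
  · rintro ⟨k, hk⟩
    by_contra h
    exact hnot h (hfooled k hk)
  · intro hf
    by_contra h
    exact hnot h hf
  · intro k hk S _ _ n j η μ hη hμ hn σ c F
    exact Helper12.BI.Certified.fool (M := M) (k := k) hk σ c F j η hη μ hμ hn
  · intro k hk m n j hm σ c F
    have : Fintype (GaloisField 2 m) := Fintype.ofFinite _
    have hcard : Fintype.card (GaloisField 2 m) = 2 ^ m := by
      rw [← Nat.card_eq_fintype_card, GaloisField.card 2 m (by omega)]
    have hdist : Helper12.BI.strDist (GaloisField 2 m) n = bitsDist m n := by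
      funext x
      unfold Helper12.BI.strDist bitsDist
      rw [hcard]
      have h4 : (((2 ^ m : ℕ) : ℝ)) ^ 2 = 4 ^ m := by
        push_cast
        rw [← pow_mul, mul_comm m 2, pow_mul]
        norm_num
      rw [h4]
      rfl
    have h1 := Helper12.BI.strDist_isDist (GaloisField 2 m) n
    have h2 := Helper12.BI.strDist_near (GaloisField 2 m) n (j * k)
    rw [hdist] at h1 h2
    rw [hcard] at h2
    have h3 := Helper12.BI.Certified.fool (M := M) (k := k) hk σ c F j _ (by positivity)
      (bitsDist m n) h1 h2
    rw [ZMod.card] at h3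
    push_cast at h3
    exact h3
  · intro h
    obtain ⟨q, hq, h1⟩ := hbad h
    refine ⟨q, hq, fun k => ?_⟩
    obtain ⟨n, c, F, μ, h2, h3, h4, h5, h6⟩ := h1 k
    refine ⟨n, μ, c, F, h2, ⟨h3, h4⟩, h6, fun x hx hxF => ?_⟩
    have h7 : ∀ y ∈ Finset.univ, 0 ≤ Set.indicator {x | value c x ∈ F} μ y :=
      fun y _ => Set.indicator_nonneg (fun z _ => h3.1 z) y
    have h8 := (Finset.sum_eq_zero_iff_of_nonneg h7).1 h5 x (Finset.mem_univ x)
    rw [Set.indicator_of_mem (by exact hxF)] at h8
    exact hx.ne' h8

end Helper12.Retired.BoundedIndependence
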